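import Mathlib

/-!
Hyperbolic 6-space in the hyperboloid model, its isometry group, hyperbolic volume, quotients,
singular homology.
-/

namespace Pool.Agent.MP_3fe7bf_gt

open Matrix

/-- The Lorentzian inner product of signature (6,1). -/
def lor (x y : Fin 7 → ℝ) : ℝ := -(x 0 * y 0) + ∑ i : Fin 6, x i.succ * y i.succ

/-- Hyperbolic 6-space: the upper sheet of the hyperboloid, with the subspace topology. -/
abbrev H6 : Type := {x : Fin 7 → ℝ // lor x x = -1 ∧ 0 < x 0}

/-- The positive Lorentz group, that is, the isometry group of hyperbolic 6-space: invertible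
matrices that preserve the Lorentzian product and each sheet of the hyperboloid. -/
def Isom6 : Subgroup (GL (Fin 7) ℝ) where
  carrier := {A | (∀ x y, lor (A.val *ᵥ x) (A.val *ᵥ y) = lor x y) ∧
    ∀ x, lor x x = -1 → (0 < (A.val *ᵥ x) 0 ↔ 0 < x 0)}
  one_mem' := by simp
  mul_mem' := by
    rintro A B ⟨hA, hA'⟩ ⟨hB, hB'⟩
    refine ⟨fun x y => ?_, fun x hx => ?_⟩
    · rw [Units.val_mul, ← mulVec_mulVec, ← mulVec_mulVec, hA, hB]
    · rw [Units.val_mul, ← mulVec_mulVec, hA' _ (by rw [hB, hx]), hB' _ hx]
  inv_mem' := by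
    rintro A ⟨hA, hA'⟩
    have e : ∀ x, A.val *ᵥ ((A⁻¹).val *ᵥ x) = x := fun x => by
      rw [mulVec_mulVec, Units.mul_inv, one_mulVec]
    have h : ∀ x y, lor ((A⁻¹).val *ᵥ x) ((A⁻¹).val *ᵥ y) = lor x y := fun x y => by
      rw [← hA, e, e]
    exact ⟨h, fun x hx => by rw [← hA' _ (by rw [h, hx]), e]⟩

/-- The action of the positive Lorentz group on hyperbolic 6-space by matrix multiplication. -/
instance : MulAction Isom6 H6 where
  smul A x := ⟨A.val.val *ᵥ x.val, by rw [A.2.1, x.2.1], (A.2.2 _ x.2.1).mpr x.2.2⟩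
  one_smul x := Subtype.ext (one_mulVec x.val)
  mul_smul A B x := Subtype.ext (mulVec_mulVec x.val A.val.val B.val.val).symm

/-- Hyperbolic volume of a subset of the hyperboloid: seven times the Lebesgue measure of the cone
over it with apex the origin. For measurable sets this is the integral of
`dx1 ... dx6 / x0`, the Riemannian volume. -/
noncomputable def hvol (F : Set H6) : ENNReal :=
  7 * MeasureTheory.volume {y : Fin 7 → ℝ | ∃ t ∈ Set.Ioo (0 : ℝ) 1, ∃ x ∈ F, y = t • x.val}

/-- The orbit space of a group of isometries, with the quotient topology. -/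
abbrev Orb (Γ : Subgroup Isom6) : Type := Quotient (MulAction.orbitRel Γ H6)

/-- Singular homology in degree `n` with coefficients in the ring `k`. -/
noncomputable abbrev Hsing (k : Type) [CommRing k] (n : ℕ) (X : Type) [TopologicalSpace X] :
    ModuleCat.{0} k :=
  ((AlgebraicTopology.singularHomologyFunctor (ModuleCat.{0} k) n).obj (ModuleCat.of k k)).obj
    (TopCat.of X)

end Pool.Agent.MP_3fe7bf_gt
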