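import Pool.Agent.MP_3fe7bf_gt.Defs

/-!
Torsion free lattices and the Euler characteristic, as used in the final statement.
-/

namespace Pool.Agent.MP_3fe7bf_gt

/-- A discrete torsion free group of isometries of hyperbolic 6-space of finite covolume. -/
def IsLat (Γ : Subgroup Isom6) : Prop :=
  DiscreteTopology Γ ∧ (∀ g ∈ Γ, IsOfFinOrder g → g = 1) ∧
    ∃ F : Set H6, MeasurableSet F ∧ hvol F < ⊤ ∧ ∀ x : H6, ∃ g ∈ Γ, g • x ∈ F

/-- The space `X` has finite dimensional rational homology, which vanishes in large degrees, and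
its Euler characteristic is `c`. -/
def HasChi (X : Type) [TopologicalSpace X] (c : ℤ) : Prop :=
  (∀ n, Module.Finite ℚ (Hsing ℚ n X)) ∧ ∃ N : ℕ, (∀ n, N ≤ n → Subsingleton (Hsing ℚ n X)) ∧
    c = ∑ n ∈ Finset.range N, (-1 : ℤ) ^ n * Module.finrank ℚ (Hsing ℚ n X)

end Pool.Agent.MP_3fe7bf_gt
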